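import Pool.Agent.helper57.LQ.SpecC

/-!
# Project lq (MP_ebc808_nt): row Q7, primes 7 modulo 24 as `u^2 + 6 c^2`
-/

set_option autoImplicit false

open Finset PowerSeries

noncomputable section

namespace Pool.Agent.LQ

theorem Q7_uniq (M a b a' b' : ℕ) (hM : M.Prime) (ha : 0 < a) (hb : 0 < b) (ha' : 0 < a')
    (hb' : 0 < b') (h : a ^ 2 + 6 * b ^ 2 = M) (h' : a' ^ 2 + 6 * b' ^ 2 = M) :
    a = a' ∧ b = b' := by
  have hMZ : (0 : ℤ) < M := by exact_mod_cast hM.pos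
  have hZ : (a : ℤ) ^ 2 + 6 * (b : ℤ) ^ 2 = M := by exact_mod_cast h
  have hZ' : (a' : ℤ) ^ 2 + 6 * (b' : ℤ) ^ 2 = M := by exact_mod_cast h'
  have haZ : (0 : ℤ) < a := by exact_mod_cast ha
  have hbZ : (0 : ℤ) < b := by exact_mod_cast hb
  have haZ' : (0 : ℤ) < a' := by exact_mod_cast ha'
  have hbZ' : (0 : ℤ) < b' := by exact_mod_cast hb'
  have key : ((a : ℤ) * b' - b * a') * (a * b' + b * a') = M * ((b' : ℤ) ^ 2 - b ^ 2) := by
    linear_combination (b' : ℤ) ^ 2 * hZ - (b : ℤ) ^ 2 * hZ'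
  have n1 : (M : ℤ) ^ 2 = ((a : ℤ) * a' + 6 * b * b') ^ 2 + 6 * ((a : ℤ) * b' - b * a') ^ 2 := by
    linear_combination -(M : ℤ) * hZ' - ((a' : ℤ) ^ 2 + 6 * (b' : ℤ) ^ 2) * hZ
  have n2 : (M : ℤ) ^ 2 = ((a : ℤ) * a' - 6 * b * b') ^ 2 + 6 * ((a : ℤ) * b' + b * a') ^ 2 := by
    linear_combination -(M : ℤ) * hZ' - ((a' : ℤ) ^ 2 + 6 * (b' : ℤ) ^ 2) * hZ
  have hMp : Prime (M : ℤ) := Nat.prime_iff_prime_int.mp hM
  have hdvd : (M : ℤ) ∣ ((a : ℤ) * b' - b * a') * (a * b' + b * a') := ⟨_, key⟩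
  have hzero : (a : ℤ) * b' - b * a' = 0 := by
    rcases hMp.dvd_or_dvd hdvd with hd | hd
    · obtain ⟨c, hc⟩ := hd
      rw [hc] at n1 ⊢
      have h1 : 0 < ((a : ℤ) * a' + 6 * b * b') ^ 2 := by positivity
      have h2 : 6 * ((M : ℤ) * c) ^ 2 < (M : ℤ) ^ 2 := by linarith
      have h3 : c ^ 2 < 1 := by
        by_contra h4
        push Not at h4
        nlinarith [sq_nonneg (M : ℤ), mul_le_mul_of_nonneg_left h4 (sq_nonneg (M : ℤ))]
      have h5 : c = 0 := by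
        have : c ^ 2 = 0 := by nlinarith [sq_nonneg c]
        exact pow_eq_zero_iff two_ne_zero |>.mp this
      rw [h5, mul_zero]
    · exfalso
      have h1 : 0 < (a : ℤ) * b' + b * a' := by positivity
      have h2 : (M : ℤ) ≤ (a : ℤ) * b' + b * a' := Int.le_of_dvd h1 hd
      have h3 : (M : ℤ) ^ 2 ≤ ((a : ℤ) * b' + b * a') ^ 2 := pow_le_pow_left₀ hMZ.le h2 2
      nlinarith [sq_nonneg ((a : ℤ) * a' - 6 * b * b'), sq_nonneg (M : ℤ), mul_pos hMZ hMZ]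
  rw [hzero, zero_mul] at key
  have h6 : (b' : ℤ) ^ 2 - b ^ 2 = 0 := by
    rcases mul_eq_zero.mp key.symm with h7 | h7
    · exact absurd h7 hMZ.ne'
    · exact h7
  have hbb : b = b' := by
    have h8 : b ^ 2 = b' ^ 2 := by
      have : (b : ℤ) ^ 2 = (b' : ℤ) ^ 2 := by linarith
      exact_mod_cast this
    exact Nat.pow_left_injective (n := 2) two_ne_zero h8
  refine ⟨?_, hbb⟩
  have h9 : a ^ 2 = a' ^ 2 := by
    rw [← hbb] at h'
    omega
  exact Nat.pow_left_injective (n := 2) two_ne_zero h9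

theorem Q7_sq (p : ℕ) (hp : p.Prime) (h7 : p % 24 = 7) :
    haveI := Fact.mk hp
    IsSquare (-6 : ZMod p) := by
  have := Fact.mk hp
  have hp2 : p ≠ 2 := by
    rintro rfl
    omega
  have h1 : ¬ IsSquare (-1 : ZMod p) := by
    rw [ZMod.exists_sq_eq_neg_one_iff]
    omega
  have h2 : IsSquare (2 : ZMod p) := by
    rw [ZMod.exists_sq_eq_two_iff hp2]
    omega
  have h3 : ¬ IsSquare (3 : ZMod p) := by
    have : Fact (Nat.Prime 3) := ⟨Nat.prime_three⟩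
    have h4 := ZMod.exists_sq_eq_prime_iff_of_mod_four_eq_three (p := p) (q := 3) (by omega)
      (by norm_num) (by omega)
    have h5' : ((3 : ℕ) : ZMod p) = 3 := by norm_cast
    rw [h5'] at h4
    rw [h4, not_not]
    have h6 : (p : ZMod 3) = 1 := by
      have h7 : (p : ZMod 3) = ((p % 3 : ℕ) : ZMod 3) := by
        rw [ZMod.natCast_mod]
      rw [h7]
      have h8 : p % 3 = 1 := by omega
      rw [h8]
      rfl
    rw [h6]
    exact ⟨1, by ring⟩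
  have c1 : quadraticChar (ZMod p) (-1) = -1 :=
    quadraticChar_neg_one_iff_not_isSquare.2 h1
  have h20 : (2 : ZMod p) ≠ 0 := by
    intro h
    have h1 : ((2 : ℕ) : ZMod p) = 0 := by exact_mod_cast h
    rw [ZMod.natCast_eq_zero_iff] at h1
    have h2 := Nat.le_of_dvd (by norm_num) h1
    omega
  have c2 : quadraticChar (ZMod p) 2 = 1 := (quadraticChar_one_iff_isSquare h20).2 h2
  have c3 : quadraticChar (ZMod p) 3 = -1 :=
    quadraticChar_neg_one_iff_not_isSquare.2 h3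
  have h60 : (-6 : ZMod p) ≠ 0 := by
    intro h
    have h0 : (6 : ZMod p) = 0 := neg_eq_zero.1 h
    have h1 : ((6 : ℕ) : ZMod p) = 0 := by exact_mod_cast h0
    rw [ZMod.natCast_eq_zero_iff] at h1
    have h2 := Nat.le_of_dvd (by norm_num) h1
    omega
  have c6 : quadraticChar (ZMod p) (-6) = 1 := by
    have e : (-6 : ZMod p) = -1 * (2 * 3) := by norm_num
    rw [e, map_mul, map_mul, c1, c2, c3]
    norm_num
  exact (quadraticChar_one_iff_isSquare h60).1 c6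

theorem Q7_thue (p : ℕ) (hp : p.Prime) (r : ZMod p) (hr : r * r = -6) :
    ∃ X Y k : ℤ, X ^ 2 + 6 * Y ^ 2 = k * p ∧ 1 ≤ k ∧ k ≤ 6 := by
  have := Fact.mk hp
  set m := Nat.sqrt p with hm
  have hm1 : p < (m + 1) * (m + 1) := Nat.lt_succ_sqrt p
  have hm2 : m * m ≤ p := Nat.sqrt_le p
  have hm3 : m * m ≠ p := by
    intro h
    have hm4 : IsSquare p := ⟨m, h.symm⟩
    exact hp.prime.not_isSquare hm4
  let S : Finset (ℕ × ℕ) := Finset.range (m + 1) ×ˢ Finset.range (m + 1)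
  have hS : Fintype.card (ZMod p) < #S := by
    rw [ZMod.card, Finset.card_product, Finset.card_range]
    exact hm1
  obtain ⟨a, ha, b, hb, hab, hf⟩ := Finset.exists_ne_map_eq_of_card_lt_of_maps_to
    (s := S) (t := (Finset.univ : Finset (ZMod p))) (f := fun x => (x.1 : ZMod p) - r * x.2)
    (by rw [Finset.card_univ]; exact hS) (fun _ _ => Finset.mem_coe.2 (Finset.mem_univ _))
  rw [Finset.mem_product, Finset.mem_range, Finset.mem_range] at ha hb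
  obtain ⟨a1, a2⟩ := a
  obtain ⟨b1, b2⟩ := b
  simp only at ha hb hf
  set X : ℤ := (a1 : ℤ) - b1 with hX
  set Y : ℤ := (a2 : ℤ) - b2 with hY
  have hXm : X ^ 2 ≤ m * m := by
    have h1 : -(m : ℤ) ≤ X := by omega
    have h2 : X ≤ m := by omega
    nlinarith
  have hYm : Y ^ 2 ≤ m * m := by
    have h1 : -(m : ℤ) ≤ Y := by omega
    have h2 : Y ≤ m := by omega
    nlinarith
  have hXY : ((X : ℤ) : ZMod p) = r * ((Y : ℤ) : ZMod p) := by
    rw [hX, hY]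
    push_cast
    linear_combination hf
  have hdvd : (p : ℤ) ∣ X ^ 2 + 6 * Y ^ 2 := by
    rw [← ZMod.intCast_zmod_eq_zero_iff_dvd]
    push_cast
    rw [hXY]
    linear_combination ((Y : ℤ) : ZMod p) ^ 2 * hr
  obtain ⟨k, hk⟩ := hdvd
  have hp0 : (0 : ℤ) < p := by exact_mod_cast hp.pos
  have hmp : ((m : ℤ) * m) < p := by
    have : m * m < p := lt_of_le_of_ne hm2 hm3
    exact_mod_cast this
  have hpos : 0 < X ^ 2 + 6 * Y ^ 2 := by
    by_contra hcon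
    have h1 : X ^ 2 = 0 := by nlinarith [sq_nonneg X, sq_nonneg Y]
    have h2 : Y ^ 2 = 0 := by nlinarith [sq_nonneg X, sq_nonneg Y]
    have h3 : X = 0 := by simpa using h1
    have h4 : Y = 0 := by simpa using h2
    apply hab
    have h5 : a1 = b1 := by omega
    have h6 : a2 = b2 := by omega
    rw [h5, h6]
  refine ⟨X, Y, k, by rw [hk]; ring, ?_, ?_⟩
  · by_contra hcon
    have h1 : k ≤ 0 := by omega
    nlinarith
  · by_contra hcon
    have h1 : 7 ≤ k := by omega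
    nlinarith

theorem Q7_int (p X Y k : ℤ) (hp : p % 24 = 7) (h : X ^ 2 + 6 * Y ^ 2 = k * p) (h1 : 1 ≤ k)
    (h6 : k ≤ 6) : ∃ s t : ℤ, p = s ^ 2 + 6 * t ^ 2 := by
  have sq3 : ∀ z : ℤ, z ^ 2 % 3 = 0 ∧ z % 3 = 0 ∨ z ^ 2 % 3 = 1 := by
    intro z
    have h : z % 3 = 0 ∨ z % 3 = 1 ∨ z % 3 = 2 := by omega
    rcases h with h | h | h
    · left; exact ⟨by rw [pow_two, Int.mul_emod, h]; rfl, h⟩
    · right; rw [pow_two, Int.mul_emod, h]; rfl
    · right; rw [pow_two, Int.mul_emod, h]; rfl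
  have sq2 : ∀ z : ℤ, z ^ 2 % 2 = 0 ∧ z % 2 = 0 ∨ z ^ 2 % 2 = 1 := by
    intro z
    have h : z % 2 = 0 ∨ z % 2 = 1 := by omega
    rcases h with h | h
    · left; exact ⟨by rw [pow_two, Int.mul_emod, h]; rfl, h⟩
    · right; rw [pow_two, Int.mul_emod, h]; rfl
  have hcase : k = 1 ∨ k = 2 ∨ k = 3 ∨ k = 4 ∨ k = 5 ∨ k = 6 := by omega
  rcases hcase with rfl | rfl | rfl | rfl | rfl | rfl
  · exact ⟨X, Y, by linarith⟩
  · exfalso
    rcases sq3 X with ⟨h, _⟩ | h <;> omega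
  · exfalso
    rcases sq3 X with ⟨_, h2⟩ | h2
    · obtain ⟨x, rfl⟩ : ∃ x, X = 3 * x := ⟨X / 3, by omega⟩
      have e : 3 * x ^ 2 + 2 * Y ^ 2 = p := by linarith
      rcases sq3 Y with ⟨h, _⟩ | h <;> omega
    · omega
  · rcases sq2 X with ⟨_, h2⟩ | h2
    · obtain ⟨x, rfl⟩ : ∃ x, X = 2 * x := ⟨X / 2, by omega⟩
      have e : 2 * x ^ 2 + 3 * Y ^ 2 = 2 * p := by linarith
      rcases sq2 Y with ⟨_, h3⟩ | h3
      · obtain ⟨y, rfl⟩ : ∃ y, Y = 2 * y := ⟨Y / 2, by omega⟩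
        exact ⟨x, y, by linarith⟩
      · exfalso
        omega
    · exfalso
      omega
  · exfalso
    rcases sq3 X with ⟨h, _⟩ | h <;> omega
  · rcases sq3 X with ⟨_, h2⟩ | h2
    · obtain ⟨x, rfl⟩ : ∃ x, X = 3 * x := ⟨X / 3, by omega⟩
      have e : 3 * x ^ 2 + 2 * Y ^ 2 = 2 * p := by linarith
      rcases sq2 x with ⟨_, h3⟩ | h3
      · obtain ⟨w, rfl⟩ : ∃ w, x = 2 * w := ⟨x / 2, by omega⟩
        exact ⟨Y, w, by linarith⟩
      · exfalso
        omega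
    · exfalso
      omega

theorem Q7_mod3 (a : ℕ) : a ^ 2 % 3 = if a % 3 = 0 then 0 else 1 := by
  rw [Nat.pow_mod]
  have : a % 3 < 3 := Nat.mod_lt _ (by norm_num)
  interval_cases a % 3 <;> simp

theorem Q7_mod8 (a : ℕ) (h : a % 2 = 1) : a ^ 2 % 8 = 1 := by
  rw [Nat.pow_mod]
  have h1 : a % 8 < 8 := Nat.mod_lt _ (by norm_num)
  have h2 : a % 8 % 2 = 1 := by omega
  interval_cases a % 8 <;> simp_all

theorem Q7_cop (a : ℕ) (h2 : a % 2 = 1) (h3 : a % 3 ≠ 0) : a.Coprime 6 := by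
  have e : (6 : ℕ) = 2 * 3 := rfl
  rw [e]
  refine Nat.Coprime.mul_right ?_ ?_
  · refine Nat.Coprime.symm ((Nat.Prime.coprime_iff_not_dvd Nat.prime_two).mpr ?_)
    omega
  · refine Nat.Coprime.symm ((Nat.Prime.coprime_iff_not_dvd Nat.prime_three).mpr ?_)
    omega

theorem Q7_exists (p : ℕ) (hp : p.Prime) (h7 : p % 24 = 7) :
    ∃ u c : ℕ, u.Coprime 6 ∧ Odd c ∧ u ^ 2 + 6 * c ^ 2 = p := by
  have := Fact.mk hp
  obtain ⟨r, hr⟩ := Q7_sq p hp h7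
  obtain ⟨X, Y, k, h1, h2, h3⟩ := Q7_thue p hp r hr.symm
  obtain ⟨s, t, hst⟩ := Q7_int p X Y k (by omega) h1 h2 h3
  obtain ⟨a, ha⟩ : ∃ a, a = s.natAbs := ⟨_, rfl⟩
  obtain ⟨b, hb⟩ : ∃ b, b = t.natAbs := ⟨_, rfl⟩
  have hab : a ^ 2 + 6 * b ^ 2 = p := by
    have : ((a ^ 2 + 6 * b ^ 2 : ℕ) : ℤ) = (p : ℤ) := by
      push_cast
      rw [ha, hb, Int.natAbs_sq, Int.natAbs_sq]
      exact hst.symm
    exact_mod_cast this
  have ha2 : a % 2 = 1 := by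
    by_contra hcon
    obtain ⟨c, rfl⟩ : ∃ c, a = 2 * c := ⟨a / 2, by omega⟩
    have e : (2 * c) ^ 2 = 4 * c ^ 2 := by ring
    omega
  have ha8 := Q7_mod8 a ha2
  have hb2 : b % 2 = 1 := by
    by_contra hcon
    obtain ⟨c, rfl⟩ : ∃ c, b = 2 * c := ⟨b / 2, by omega⟩
    have e : 6 * (2 * c) ^ 2 = 8 * (3 * c ^ 2) := by ring
    omega
  have ha3 : a % 3 ≠ 0 := by
    intro h0
    have h3 := Q7_mod3 a
    rw [if_pos h0] at h3
    omega
  exact ⟨a, b, Q7_cop a ha2 ha3, Nat.odd_iff.2 hb2, hab⟩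

open Classical in
theorem Q7_coef (hTGR : TGR_stmt) (n : ℕ) :
    coeff n ((tt ^ 3) ^ 2) = if ∃ c : ℕ, Odd c ∧ n = 6 * c ^ 2 then 1 else 0 := by
  obtain ⟨-, hDD, h3, -⟩ := hTGR
  have e1 : (tt ^ 3) ^ 2 = (tt ^ 3) ^ (2 ^ 1) := by norm_num
  rw [e1, Pool.Agent.helper12.PE.pow_eq_expand, PowerSeries.coeff_expand, ← h3]
  by_cases h2n : 2 ^ 1 ∣ n
  · rw [if_pos h2n]
    obtain ⟨m, rfl⟩ := h2n
    have e2 : 2 ^ 1 * m / 2 ^ 1 = m := by
      rw [Nat.mul_div_cancel_left _ (by norm_num)]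
    rw [e2]
    unfold ex
    rw [coeff_mk]
    by_cases h3m : 3 ∣ m
    · rw [if_pos h3m]
      obtain ⟨l, rfl⟩ := h3m
      have e3 : 3 * l / 3 = l := by
        rw [Nat.mul_div_cancel_left _ (by norm_num)]
      rw [e3, hDD]
      have e4 : (∃ v : ℕ, Odd v ∧ l = v ^ 2) ↔ ∃ c : ℕ, Odd c ∧ 2 ^ 1 * (3 * l) = 6 * c ^ 2 := by
        constructor
        · rintro ⟨v, hv, rfl⟩
          exact ⟨v, hv, by ring⟩
        · rintro ⟨v, hv, h⟩
          exact ⟨v, hv, by omega⟩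
      by_cases h : ∃ v : ℕ, Odd v ∧ l = v ^ 2
      · rw [if_pos h, if_pos (e4.1 h)]
      · rw [if_neg h, if_neg (fun h' => h (e4.2 h'))]
    · rw [if_neg h3m, if_neg]
      rintro ⟨c, -, hc⟩
      exact h3m (by omega)
  · rw [if_neg h2n, if_neg]
    rintro ⟨c, -, hc⟩
    exact h2n (by omega)

theorem Q7 (hTGR : TGR_stmt) : Q7_stmt := by
  classical
  intro q hq h7
  obtain ⟨u, c, hu, hc, huc⟩ := Q7_exists q hq h7
  have hpos : ∀ x : ℕ, x.Coprime 6 → 0 < x := by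
    intro x hx
    rcases Nat.eq_zero_or_pos x with rfl | h
    · norm_num at hx
    · exact h
  have e1 : tt ^ 7 = tt * (tt ^ 3) ^ 2 := by ring
  rw [e1, PowerSeries.coeff_mul]
  rw [Finset.sum_eq_single (u ^ 2, 6 * c ^ 2)]
  · rw [hTGR.1, Q7_coef hTGR, if_pos ⟨u, hu, rfl⟩, if_pos ⟨c, hc, rfl⟩, one_mul]
  · rintro ⟨i, j⟩ hij hne
    rw [Finset.HasAntidiagonal.mem_antidiagonal] at hij
    simp only at hij
    show coeff i tt * coeff j ((tt ^ 3) ^ 2) = 0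
    rw [hTGR.1, Q7_coef hTGR]
    by_cases h1 : ∃ u : ℕ, u.Coprime 6 ∧ i = u ^ 2
    · by_cases h2 : ∃ c : ℕ, Odd c ∧ j = 6 * c ^ 2
      · exfalso
        obtain ⟨u', hu', rfl⟩ := h1
        obtain ⟨c', hc', rfl⟩ := h2
        obtain ⟨e2, e3⟩ := Q7_uniq q u' c' u c hq (hpos u' hu') hc'.pos (hpos u hu) hc.pos hij huc
        apply hne
        rw [e2, e3]
      · rw [if_neg h2, mul_zero]
    · rw [if_neg h1, zero_mul]
  · intro h
    exact absurd (Finset.HasAntidiagonal.mem_antidiagonal.2 huc) h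

end Pool.Agent.LQ
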